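import Mathlib

/-!
# Absorbing one dimension in `C(K)` along a convergent sequence of isolated points
-/

open Filter Topology

namespace Pool.Agent.Helper58.CK

variable {K : Type} [TopologicalSpace K] [CompactSpace K] [T2Space K]

lemma continuousAt_of_isOpen_singleton {Y : Type*} [TopologicalSpace Y] (F : K → Y) {a : K} 
    (h : IsOpen ({a} : Set K)) : ContinuousAt F a := by
  have h1 : 𝓝 a = pure a := by
    rw [isOpen_singleton_iff_nhds_eq_pure] at h; exact h
  rw [ContinuousAt, h1]
  exact tendsto_pure_nhds F a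

/-- a function that is continuous away from the sequence, and along the sequence, is continuous -/
lemma continuous_glue {Y : Type*} [TopologicalSpace Y] (p : ℕ → K) 
    (hiso : ∀ k, IsOpen {p k}) (x : K) (hx : Tendsto p atTop (𝓝 x)) (hxp : ∀ k, p k ≠ x)
    (F G : K → Y) (hG : Continuous G) (hFG : ∀ y, (∀ k, p k ≠ y) → F y = G y) 
    (hF : Tendsto (fun k => F (p k)) atTop (𝓝 (G x))) : Continuous F := by
  rw [continuous_iff_continuousAt]
  intro y
  by_cases hy : ∃ k, p k = y
  · obtain ⟨k, rfl⟩ := hy
    exact continuousAt_of_isOpen_singleton F (hiso k)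
  push Not at hy
  by_cases hyx : y = x
  · subst hyx
    rw [ContinuousAt, hFG y hy, tendsto_def]
    intro U hU
    obtain ⟨N, hN⟩ := eventually_atTop.mp (hF hU)
    have h1 : G ⁻¹' U ∈ 𝓝 y := hG.continuousAt hU
    have h2 : (p '' (Set.Iio N))ᶜ ∈ 𝓝 y := by
      apply IsOpen.mem_nhds
      · exact ((Set.finite_Iio N).image p).isClosed.isOpen_compl
      · rintro ⟨k, _, hk⟩
        exact hxp k hk
    filter_upwards [h1, h2] with z hz1 hz2
    by_cases hz : ∃ k, p k = z
    · obtain ⟨k, rfl⟩ := hz
      by_cases hk : N ≤ k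
      · exact hN k hk
      · exact absurd ⟨k, not_le.mp hk, rfl⟩ hz2
    · push Not at hz
      show F z ∈ U
      rw [hFG z hz]
      exact hz1
  · have hcl : IsClosed (insert x (Set.range p)) := (hx.isCompact_insert_range).isClosed
    have hmem : (insert x (Set.range p))ᶜ ∈ 𝓝 y := by
      apply hcl.isOpen_compl.mem_nhds
      rintro (h | ⟨k, hk⟩)
      · exact hyx h
      · exact hy k hk
    have : F =ᶠ[𝓝 y] G := by
      filter_upwards [hmem] with z hz
      apply hFG
      intro k hk
      exact hz (Or.inr ⟨k, hk⟩)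
    exact (hG.continuousAt).congr this.symm

theorem absorb (p : ℕ → K) (hp : Function.Injective p) (hiso : ∀ k, IsOpen {p k}) (x : K)
    (hx : Tendsto p atTop (𝓝 x)) :
    Nonempty (C(K, ℝ) ≃L[ℝ] C(K, ℝ) × ℝ) := by
  classical
  have hxp : ∀ k, p k ≠ x := by
    intro k hk
    have h1 : {p k} ∈ 𝓝 x := by rw [← hk]; exact (hiso k).mem_nhds rfl
    obtain ⟨N, hN⟩ := eventually_atTop.mp (hx h1)
    have h2 := hN (max N (k + 1)) (le_max_left _ _)
    have h3 := hp h2
    have h4 := le_max_right N (k + 1)
    omega
  -- the shift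
  let Sf : K → K := fun y => if h : ∃ k, p k = y then p (h.choose + 1) else y
  have hSp : ∀ k, Sf (p k) = p (k + 1) := by
    intro k
    have h : ∃ j, p j = p k := ⟨k, rfl⟩
    show (if h : ∃ j, p j = p k then p (h.choose + 1) else p k) = p (k + 1)
    rw [dif_pos h, hp h.choose_spec]
  have hSy : ∀ y, (∀ k, p k ≠ y) → Sf y = y := by
    intro y hy
    have h : ¬ ∃ j, p j = y := by push Not; exact hy
    show (if h : ∃ j, p j = y then p (h.choose + 1) else y) = y
    rw [dif_neg h]
  have hSc : Continuous Sf := by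
    refine continuous_glue p hiso x hx hxp Sf id continuous_id hSy ?_
    simp only [hSp, id]
    exact hx.comp (tendsto_add_atTop_nat 1)
  let S : C(K, K) := ⟨Sf, hSc⟩
  let T : C(K, ℝ) →L[ℝ] C(K, ℝ) × ℝ := LinearMap.mkContinuous 
    { toFun := fun f => (f.comp S, f (p 0))
      map_add' := fun f g => rfl
      map_smul' := fun c f => rfl } 1 (by
      intro f
      rw [one_mul]
      apply max_le
      · rw [ContinuousMap.norm_le _ (norm_nonneg f)]
        intro y
        exact f.norm_coe_le_norm _
      · exact f.norm_coe_le_norm _)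
  have hT : ∀ f, T f = (f.comp S, f (p 0)) := fun f => rfl
  refine ⟨ContinuousLinearEquiv.ofBijective T ?_ ?_⟩
  · rw [LinearMap.ker_eq_bot']
    intro f hf
    have hf' : T f = 0 := hf
    rw [hT, Prod.mk_eq_zero] at hf'
    obtain ⟨h1, h2⟩ := hf'
    ext y
    by_cases hy : ∃ k, p k = y
    · obtain ⟨k, rfl⟩ := hy
      cases k with
      | zero => exact h2
      | succ k =>
        have := congrArg (fun g : C(K, ℝ) => g (p k)) h1
        simpa [S, hSp k] using this
    · push Not at hy
      have := congrArg (fun g : C(K, ℝ) => g y) h1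
      simpa [S, hSy y hy] using this
  · rw [LinearMap.range_eq_top]
    rintro ⟨g, c⟩
    let h : K → ℝ := fun y => if h : ∃ k, p k = y then 
      (match h.choose with
        | 0 => c
        | k + 1 => g (p k)) else g y
    have hh0 : h (p 0) = c := by
      have he : ∃ j, p j = p 0 := ⟨0, rfl⟩
      have hc : he.choose = 0 := hp he.choose_spec
      show (if h : ∃ j, p j = p 0 then (match h.choose with | 0 => c | k + 1 => g (p k)) else g (p 0)) = c
      rw [dif_pos he, hc]
    have hhk : ∀ k, h (p (k + 1)) = g (p k) := by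
      intro k
      have he : ∃ j, p j = p (k + 1) := ⟨k + 1, rfl⟩
      have hc : he.choose = k + 1 := hp he.choose_spec
      show (if h : ∃ j, p j = p (k + 1) then (match h.choose with | 0 => c | k + 1 => g (p k)) 
        else g (p (k + 1))) = g (p k)
      rw [dif_pos he, hc]
    have hhy : ∀ y, (∀ k, p k ≠ y) → h y = g y := by
      intro y hy
      have he : ¬ ∃ j, p j = y := by push Not; exact hy
      show (if h : ∃ j, p j = y then (match h.choose with | 0 => c | k + 1 => g (p k)) 
        else g y) = g y
      rw [dif_neg he]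
    have hhc : Continuous h := by
      refine continuous_glue p hiso x hx hxp h g g.continuous hhy ?_
      rw [← tendsto_add_atTop_iff_nat 1]
      simp only [hhk]
      exact (g.continuous.tendsto x).comp hx
    refine ⟨⟨h, hhc⟩, ?_⟩
    show T ⟨h, hhc⟩ = (g, c)
    rw [hT, Prod.mk.injEq]
    refine ⟨?_, hh0⟩
    ext y
    show h (Sf y) = g y
    by_cases hy : ∃ k, p k = y
    · obtain ⟨k, rfl⟩ := hy
      rw [hSp, hhk]
    · push Not at hy
      rw [hSy y hy, hhy y hy]

end Pool.Agent.Helper58.CK
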