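import Mathlib

/-!
# Splitting `C(K)` along disjoint clopen copies of `K` and one isolated point
-/

open Filter Topology

namespace Pool.Agent.Helper58.CK

variable {K : Type} [TopologicalSpace K] [CompactSpace K] [T2Space K]

theorem cube (S : Fin 3 → C(K, K)) (hinj : ∀ i, Function.Injective (S i))
    (hopen : ∀ i, IsOpen (Set.range (S i)))
    (hdisj : ∀ i j, i ≠ j → Disjoint (Set.range (S i)) (Set.range (S j)))
    (p : K) (hp : ∀ i, p ∉ Set.range (S i)) (hpo : IsOpen {p})
    (hcov : ∀ y, y = p ∨ ∃ i, y ∈ Set.range (S i)) :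
    Nonempty (C(K, ℝ) ≃L[ℝ] (C(K, ℝ) × C(K, ℝ) × C(K, ℝ)) × ℝ) := by
  classical
  have hemb : ∀ i, IsOpenEmbedding (S i) := fun i => 
    ⟨((S i).continuous.isClosedEmbedding (hinj i)).isEmbedding, hopen i⟩
  let T : C(K, ℝ) →L[ℝ] (C(K, ℝ) × C(K, ℝ) × C(K, ℝ)) × ℝ := LinearMap.mkContinuous 
    { toFun := fun f => ((f.comp (S 0), f.comp (S 1), f.comp (S 2)), f p)
      map_add' := fun f g => rfl
      map_smul' := fun c f => rfl } 1 (by
      intro f
      rw [one_mul]
      have h1 : ∀ i, ‖f.comp (S i)‖ ≤ ‖f‖ := by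
        intro i
        rw [ContinuousMap.norm_le _ (norm_nonneg f)]
        intro y
        exact f.norm_coe_le_norm _
      exact max_le (max_le (h1 0) (max_le (h1 1) (h1 2))) (f.norm_coe_le_norm _))
  have hT : ∀ f, T f = ((f.comp (S 0), f.comp (S 1), f.comp (S 2)), f p) := fun f => rfl
  refine ⟨ContinuousLinearEquiv.ofBijective T ?_ ?_⟩
  · rw [LinearMap.ker_eq_bot']
    intro f hf
    have hf' : T f = 0 := hf
    rw [hT, Prod.mk_eq_zero, Prod.mk_eq_zero, Prod.mk_eq_zero] at hf'
    obtain ⟨⟨h0, h1, h2⟩, h3⟩ := hf'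
    have hS : ∀ i, f.comp (S i) = 0 := by
      intro i
      fin_cases i
      · exact h0
      · exact h1
      · exact h2
    ext y
    rcases hcov y with rfl | ⟨i, z, rfl⟩
    · exact h3
    · exact congrArg (fun g : C(K, ℝ) => g z) (hS i)
  · rw [LinearMap.range_eq_top]
    rintro ⟨⟨g0, g1, g2⟩, c⟩
    let g : Fin 3 → C(K, ℝ) := ![g0, g1, g2]
    let h : K → ℝ := fun y => if hy : ∃ i, y ∈ Set.range (S i) then 
      g hy.choose hy.choose_spec.choose else c
    have hhS : ∀ i z, h (S i z) = g i z := by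
      intro i z
      have hy : ∃ j, S i z ∈ Set.range (S j) := ⟨i, z, rfl⟩
      have hi : hy.choose = i := by
        by_contra hne
        exact Set.disjoint_left.mp (hdisj _ _ hne) hy.choose_spec ⟨z, rfl⟩
      have hgen : ∀ (j : Fin 3) (hj : S i z ∈ Set.range (S j)), j = i → g j hj.choose = g i z := by
        intro j hj hji
        subst hji
        rw [hinj j hj.choose_spec]
      show (if hy : ∃ j, S i z ∈ Set.range (S j) then g hy.choose hy.choose_spec.choose else c) = g i z
      rw [dif_pos hy]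
      exact hgen hy.choose hy.choose_spec hi
    have hhp : h p = c := by
      have hy : ¬ ∃ i, p ∈ Set.range (S i) := by
        rintro ⟨i, hi⟩; exact hp i hi
      show (if hy : ∃ j, p ∈ Set.range (S j) then g hy.choose hy.choose_spec.choose else c) = c
      rw [dif_neg hy]
    have hhc : Continuous h := by
      rw [continuous_iff_continuousAt]
      intro y
      rcases hcov y with rfl | ⟨i, z, rfl⟩
      · have h1 : 𝓝 y = pure y := by
          rw [isOpen_singleton_iff_nhds_eq_pure] at hpo; exact hpo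
        rw [ContinuousAt, h1]
        exact tendsto_pure_nhds h y
      · rw [← (hemb i).continuousAt_iff]
        have : h ∘ (S i) = g i := by
          funext z; exact hhS i z
        rw [this]
        exact (g i).continuous.continuousAt
    refine ⟨⟨h, hhc⟩, ?_⟩
    show T ⟨h, hhc⟩ = ((g0, g1, g2), c)
    rw [hT]
    refine Prod.ext (Prod.ext ?_ (Prod.ext ?_ ?_)) hhp
    · ext z; exact hhS 0 z
    · ext z; exact hhS 1 z
    · ext z; exact hhS 2 z

end Pool.Agent.Helper58.CK
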